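import Mathlib
import Pool.Agent.H325.EN.Defs
import Pool.Graph.R_seed8.Helper958.ExpP.Fit
import Pool.Graph.R_pool_sql_team_668148b0.Helper160.NilpFG

/-!
# EN1: the Hirsch-Plotkin theorem
-/

set_option autoImplicit false
set_option linter.all false

open scoped commutatorElement

namespace Pool.Agent.H349.EN

open Pool.Agent.H325.EN Subgroup

variable {G : Type} [Group G]

/-- `g` and `g⁻¹` normalise `X` -/
def Nz (X : Subgroup G) (g : G) : Prop :=
  (∀ x ∈ X, g * x * g⁻¹ ∈ X) ∧ ∀ x ∈ X, g⁻¹ * x * g ∈ X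

theorem nz_self (X : Subgroup G) {g : G} (hg : g ∈ X) : Nz X g :=
  ⟨fun x hx => X.mul_mem (X.mul_mem hg hx) (X.inv_mem hg),
    fun x hx => X.mul_mem (X.mul_mem (X.inv_mem hg) hx) hg⟩

theorem nz_closure (X : Subgroup G) (T : Set G) (h : ∀ g ∈ T, Nz X g) :
    ∀ g ∈ closure T, Nz X g := by
  intro g hg
  induction hg using closure_induction with
  | mem x hx => exact h x hx
  | one => exact nz_self X X.one_mem
  | mul x y _ _ hx hy =>
    constructor
    · intro z hz
      have := hx.1 _ (hy.1 z hz)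
      have e : x * (y * z * y⁻¹) * x⁻¹ = x * y * z * (x * y)⁻¹ := by group
      rwa [e] at this
    · intro z hz
      have := hy.2 _ (hx.2 z hz)
      have e : y⁻¹ * (x⁻¹ * z * x) * y = (x * y)⁻¹ * z * (x * y) := by group
      rwa [e] at this
  | inv x _ hx =>
    constructor
    · intro z hz
      have := hx.2 z hz
      rwa [inv_inv]
    · intro z hz
      have := hx.1 z hz
      rwa [inv_inv]

/-- it is enough to check generators -/
theorem nz_of_gen (T : Set G) (g : G) (h1 : ∀ x ∈ T, g * x * g⁻¹ ∈ closure T)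
    (h2 : ∀ x ∈ T, g⁻¹ * x * g ∈ closure T) : Nz (closure T) g := by
  constructor
  · intro x hx
    induction hx using closure_induction with
    | mem x hx => exact h1 x hx
    | one => simp
    | mul x y _ _ hx hy =>
      have e : g * (x * y) * g⁻¹ = (g * x * g⁻¹) * (g * y * g⁻¹) := by group
      rw [e]
      exact mul_mem hx hy
    | inv x _ hx =>
      have e : g * x⁻¹ * g⁻¹ = (g * x * g⁻¹)⁻¹ := by group
      rw [e]
      exact inv_mem hx
  · intro x hx
    induction hx using closure_induction with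
    | mem x hx => exact h2 x hx
    | one => simp
    | mul x y _ _ hx hy =>
      have e : g⁻¹ * (x * y) * g = (g⁻¹ * x * g) * (g⁻¹ * y * g) := by group
      rw [e]
      exact mul_mem hx hy
    | inv x _ hx =>
      have e : g⁻¹ * x⁻¹ * g = (g⁻¹ * x * g)⁻¹ := by group
      rw [e]
      exact inv_mem hx

/-- subgroups of finitely generated nilpotent subgroups are finitely generated -/
theorem fg_of_le (F : Set G) (hF : F.Finite) (hn : Group.IsNilpotent (closure F))
    (E : Subgroup G) (hE : E ≤ closure F) : E.FG := by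
  obtain ⟨c, hc⟩ := Subgroup.nilpotent_iff_lowerCentralSeries.1 hn
  have hfg : Group.FG (closure F) := by
    rw [Group.fg_iff_subgroup_fg]
    exact ⟨hF.toFinset, by rw [Set.Finite.coe_toFinset]⟩
  have h := Pool.Agent.Helper160.NilpFG.noe_of_lcs c (closure F) hc (E.subgroupOf (closure F))
  obtain ⟨T, hT⟩ := h
  rw [Subgroup.fg_iff]
  refine ⟨(closure F).subtype '' (T : Set (closure F)), ?_, T.finite_toSet.image _⟩
  rw [← MonoidHom.map_closure, hT, Subgroup.subgroupOf_map_subtype, inf_eq_left.2 hE]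

/-- one of the two normal subgroups -/
theorem half (H K : Subgroup G) (hH : H.Normal) (hK : K.Normal) (lH : LNil H) (lK : LNil K)
    (A B : Set G) (hA : A.Finite) (hB : B.Finite) (hAH : A ⊆ H) (hBK : B ⊆ K) :
    ∃ X : Subgroup G, A ⊆ X ∧ X ≤ closure (A ∪ B) ∧ (∀ g ∈ closure (A ∪ B), Nz X g) ∧
      ∃ n, X.lowerCentralSeries n = ⊥ := by
  let C : Set G := Set.image2 (fun a b => ⁅a, b⁆) A B
  have hCf : C.Finite := hA.image2 _ hB
  have hCH : C ⊆ H := by
    rintro _ ⟨a, ha, b, hb, rfl⟩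
    change ⁅a, b⁆ ∈ H
    have e : ⁅a, b⁆ = a * (b * a⁻¹ * b⁻¹) := by rw [commutatorElement_def]; group
    rw [e]
    exact H.mul_mem (hAH ha) (hH.conj_mem _ (H.inv_mem (hAH ha)) b)
  have hCK : C ⊆ K := by
    rintro _ ⟨a, ha, b, hb, rfl⟩
    change ⁅a, b⁆ ∈ K
    have e : ⁅a, b⁆ = (a * b * a⁻¹) * b⁻¹ := by rw [commutatorElement_def]
    rw [e]
    exact K.mul_mem (hK.conj_mem _ (hBK hb) a) (K.inv_mem (hBK hb))
  have hCG : C ⊆ closure (A ∪ B) := by
    rintro _ ⟨a, ha, b, hb, rfl⟩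
    have h1 : a ∈ closure (A ∪ B) := subset_closure (Or.inl ha)
    have h2 : b ∈ closure (A ∪ B) := subset_closure (Or.inr hb)
    change ⁅a, b⁆ ∈ closure (A ∪ B)
    rw [commutatorElement_def]
    exact mul_mem (mul_mem (mul_mem h1 h2) (inv_mem h1)) (inv_mem h2)
  have hDn : Group.IsNilpotent (closure (B ∪ C)) :=
    lK _ (hB.union hCf) (Set.union_subset hBK hCK)
  let E : Subgroup G := closure {z | ∃ y ∈ closure (B ∪ C), ∃ c ∈ C, z = y * c * y⁻¹}
  have hED : E ≤ closure (B ∪ C) := by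
    rw [closure_le]
    rintro _ ⟨y, hy, c, hc, rfl⟩
    exact mul_mem (mul_mem hy (subset_closure (Or.inr hc))) (inv_mem hy)
  have hEH : E ≤ H := by
    rw [closure_le]
    rintro _ ⟨y, hy, c, hc, rfl⟩
    exact hH.conj_mem _ (hCH hc) y
  have hDG : closure (B ∪ C) ≤ closure (A ∪ B) := by
    rw [closure_le]
    rintro z (hz | hz)
    · exact subset_closure (Or.inr hz)
    · exact hCG hz
  have hEG : E ≤ closure (A ∪ B) := hED.trans hDG
  have hCE : C ⊆ E := by
    intro c hc
    exact subset_closure ⟨1, one_mem _, c, hc, by simp⟩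
  have hEnz : ∀ g ∈ closure (B ∪ C), Nz E g := by
    intro g hg
    apply nz_of_gen
    · rintro _ ⟨y, hy, c, hc, rfl⟩
      refine subset_closure ⟨g * y, mul_mem hg hy, c, hc, ?_⟩
      group
    · rintro _ ⟨y, hy, c, hc, rfl⟩
      refine subset_closure ⟨g⁻¹ * y, mul_mem (inv_mem hg) hy, c, hc, ?_⟩
      group
  obtain ⟨S, hS⟩ := fg_of_le (B ∪ C) (hB.union hCf) hDn E hED
  have hSE : (S : Set G) ⊆ E := by
    rw [← hS]
    exact subset_closure
  have hEX : E ≤ closure (A ∪ S) := by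
    rw [← hS]
    exact closure_mono Set.subset_union_right
  have hAX : A ⊆ closure (A ∪ (S : Set G)) := fun a ha => subset_closure (Or.inl ha)
  refine ⟨closure (A ∪ S), hAX, ?_, ?_, ?_⟩
  · rw [closure_le]
    rintro z (hz | hz)
    · exact subset_closure (Or.inl hz)
    · exact hEG (hSE hz)
  · apply nz_closure
    rintro g (hg | hg)
    · exact nz_self _ (hAX hg)
    · have hgD : g ∈ closure (B ∪ C) := subset_closure (Or.inl hg)
      apply nz_of_gen
      · rintro x (hx | hx)
        · have e : g * x * g⁻¹ = ⁅x, g⁆⁻¹ * x := by rw [commutatorElement_def]; group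
          rw [e]
          exact mul_mem (inv_mem (hEX (hCE ⟨x, hx, g, hg, rfl⟩))) (hAX hx)
        · exact hEX ((hEnz g hgD).1 x (hSE hx))
      · rintro x (hx | hx)
        · have e : g⁻¹ * x * g = (g⁻¹ * ⁅x, g⁆ * g) * x := by rw [commutatorElement_def]; group
          rw [e]
          exact mul_mem (hEX ((hEnz g hgD).2 _ (hCE ⟨x, hx, g, hg, rfl⟩))) (hAX hx)
        · exact hEX ((hEnz g hgD).2 x (hSE hx))
  · have h1 : Group.IsNilpotent (closure (A ∪ (S : Set G))) := by
      apply lH _ (hA.union S.finite_toSet)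
      exact Set.union_subset hAH fun z hz => hEH (hSE hz)
    exact (isNilpotent_iff_lowerCentralSeries _).1 h1

theorem core (H K : Subgroup G) (hH : H.Normal) (hK : K.Normal) (lH : LNil H) (lK : LNil K)
    (A B : Set G) (hA : A.Finite) (hB : B.Finite) (hAH : A ⊆ H) (hBK : B ⊆ K) :
    ∃ n, (closure (A ∪ B)).lowerCentralSeries n = ⊥ := by
  obtain ⟨X, hAX, hXG, hXn, n, hn⟩ := half H K hH hK lH lK A B hA hB hAH hBK
  obtain ⟨Y, hBY, hYG, hYn, m, hm⟩ := half K H hK hH lK lH B A hB hA hBK hAH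
  rw [Set.union_comm B A] at hYG hYn
  let G₀ : Subgroup G := closure (A ∪ B)
  have key : ∀ (Z : Subgroup G) (_ : Z ≤ G₀) (_ : ∀ g ∈ G₀, Nz Z g) (c : ℕ)
      (_ : Z.lowerCentralSeries c = ⊥) (d : ℕ) (_ : c ≤ d),
      (Z.subgroupOf G₀).Normal ∧ (Z.subgroupOf G₀).lowerCentralSeries d = ⊥ := by
    intro Z hZ hZn c hc d hcd
    constructor
    · refine ⟨fun x hx g => ?_⟩
      rw [mem_subgroupOf] at hx ⊢
      exact (hZn g g.2).1 _ hx
    · have h1 : ((Z.subgroupOf G₀).lowerCentralSeries d).map G₀.subtype = ⊥ := by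
        rw [map_lowerCentralSeries, Subgroup.subgroupOf_map_subtype, inf_eq_left.2 hZ, eq_bot_iff,
          ← hc]
        exact Z.lowerCentralSeries_antitone hcd
      exact (Subgroup.map_eq_bot_iff_of_injective _ G₀.subtype_injective).1 h1
  obtain ⟨hX1, hX2⟩ := key X hXG hXn n hn (max n m) (le_max_left _ _)
  obtain ⟨hY1, hY2⟩ := key Y hYG hYn m hm (max n m) (le_max_right _ _)
  have htop : X.subgroupOf G₀ ⊔ Y.subgroupOf G₀ = ⊤ := by
    rw [eq_top_iff]
    intro x _
    have h1 : (x : G) ∈ (X.subgroupOf G₀ ⊔ Y.subgroupOf G₀).map G₀.subtype := by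
      rw [Subgroup.map_sup, Subgroup.subgroupOf_map_subtype, Subgroup.subgroupOf_map_subtype,
        inf_eq_left.2 hXG, inf_eq_left.2 hYG]
      have h2 : closure (A ∪ B) ≤ X ⊔ Y := by
        rw [closure_le]
        rintro z (hz | hz)
        · exact mem_sup_left (hAX hz)
        · exact mem_sup_right (hBY hz)
      exact h2 x.2
    obtain ⟨y, hy, hyx⟩ := h1
    have : y = x := Subtype.ext hyx
    rwa [← this]
  have hf := Pool.Agent.Helper958.ExpP.fitting (X.subgroupOf G₀) (Y.subgroupOf G₀) htop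
    (max n m) hX2 hY2
  refine ⟨2 * max n m, ?_⟩
  have h3 := Subgroup.top_subtype_lowerCentralSeries G₀ (2 * max n m)
  have h4 : ((⊤ : Subgroup G₀).lowerCentralSeries (2 * max n m)).map G₀.subtype = ⊥ := by
    have h5 : (⊤ : Subgroup G₀).lowerCentralSeries (2 * max n m) = ⊥ := hf
    rw [h5, Subgroup.map_bot]
  rw [h4] at h3
  exact h3.symm

theorem hp : S_HP.{0} := by
  intro G _ H K hH hK lH lK F hF hFHK
  have h1 : ∀ f ∈ F, ∃ a ∈ H, ∃ b ∈ K, a * b = f := by
    intro f hf
    have := hFHK hf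
    rw [SetLike.mem_coe, Subgroup.mem_sup_of_normal_right] at this
    exact this
  choose! a ha b hb hab using h1
  obtain ⟨n, hn⟩ := core H K hH hK lH lK (a '' F) (b '' F) (hF.image a) (hF.image b)
    (by rintro _ ⟨f, hf, rfl⟩; exact ha f hf) (by rintro _ ⟨f, hf, rfl⟩; exact hb f hf)
  rw [isNilpotent_iff_lowerCentralSeries]
  refine ⟨n, ?_⟩
  rw [eq_bot_iff, ← hn]
  apply lowerCentralSeries_mono n
  change closure F ≤ _
  rw [closure_le]
  intro f hf
  rw [SetLike.mem_coe, ← hab f hf]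
  exact mul_mem (subset_closure (Or.inl ⟨f, hf, rfl⟩)) (subset_closure (Or.inr ⟨f, hf, rfl⟩))

end Pool.Agent.H349.EN
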